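import Pool.Agent.K7.H74.AF.Stm
import Pool.Agent.K7.H74.WD.Dbl

set_option autoImplicit false

/-!
# Project AF, job PAIR: the mean number of pairs
-/

open MeasureTheory Set

namespace Pool.Agent.K7.H41.AF

open Pool.Agent.K7.H74.AF Pool.Agent.K7.H74.WD

theorem ov_neg {V : Set ℝ} (u : ℝ) : ov V (-u) = ov V u := by
  have h1 := ov_shift (V := V) 0 u
  have h2 := ov_shift (V := V) u 0
  rw [sub_zero] at h1
  rw [zero_sub] at h2
  rw [← h1, ← h2]
  congr 1
  ext t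
  exact and_comm

/-- the harmonic sum -/
theorem harm (J : ℕ) : ∑ d ∈ Finset.Ico (1:ℕ) (3 ^ J), (1 : ℝ) / d ≤ 2 * J := by
  induction J with
  | zero => simp
  | succ J ih =>
    have h1 : 3 ^ J ≤ 3 ^ (J + 1) := Nat.pow_le_pow_right (by norm_num) (by omega)
    have h0 : 1 ≤ 3 ^ J := Nat.one_le_pow _ _ (by norm_num)
    rw [← Finset.sum_Ico_consecutive _ h0 h1]
    have h2 : ∑ d ∈ Finset.Ico ((3:ℕ) ^ J) (3 ^ (J + 1)), (1 : ℝ) / d ≤
        ∑ d ∈ Finset.Ico ((3:ℕ) ^ J) (3 ^ (J + 1)), (1 : ℝ) / 3 ^ J := by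
      apply Finset.sum_le_sum
      intro d hd
      rw [Finset.mem_Ico] at hd
      apply one_div_le_one_div_of_le (by positivity)
      exact_mod_cast hd.1
    rw [Finset.sum_const, Nat.card_Ico, nsmul_eq_mul] at h2
    have h3 : ((3 ^ (J + 1) - 3 ^ J : ℕ) : ℝ) * (1 / 3 ^ J) = 2 := by
      have h4 : 3 ^ (J + 1) - 3 ^ J = 2 * 3 ^ J := by
        rw [pow_succ]
        omega
      rw [h4]
      push_cast
      field_simp
    rw [h3] at h2
    push_cast
    linarith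

/-- the sum over the pairs -/
theorem pair_sum {S : Finset ℕ} {N : ℕ} (hS : ∀ y ∈ S, y < N) (g : ℕ → ℕ → ENNReal)
    (hg : ∀ x y, g x y = g y x) :
    ∑ x ∈ S, ∑ y ∈ S.erase x, g x y ≤ 2 * ∑ d ∈ Finset.Ico 1 N, ∑ x ∈ S, g x (x + d) := by
  classical
  have h1 : ∀ x ∈ S, ∑ y ∈ S.erase x, g x y =
      ∑ y ∈ S with x < y, g x y + ∑ y ∈ S with y < x, g x y := by
    intro x hx
    rw [← Finset.sum_union]
    · apply Finset.sum_congr _ fun _ _ => rfl
      ext y
      simp only [Finset.mem_erase, Finset.mem_union, Finset.mem_filter]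
      constructor
      · rintro ⟨h2, h3⟩
        rcases lt_or_gt_of_ne h2 with h | h
        · exact Or.inr ⟨h3, h⟩
        · exact Or.inl ⟨h3, h⟩
      · rintro (⟨h3, h⟩ | ⟨h3, h⟩)
        · exact ⟨by omega, h3⟩
        · exact ⟨by omega, h3⟩
    · rw [Finset.disjoint_left]
      intro y h2 h3
      rw [Finset.mem_filter] at h2 h3
      omega
  rw [Finset.sum_congr rfl h1, Finset.sum_add_distrib]
  have h2 : ∑ x ∈ S, ∑ y ∈ S with y < x, g x y = ∑ x ∈ S, ∑ y ∈ S with x < y, g x y := by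
    rw [Finset.sum_comm' (s' := fun y => S.filter fun x => y < x) (t' := S)]
    · exact Finset.sum_congr rfl fun x _ => Finset.sum_congr rfl fun y _ => hg _ _
    · intro x y
      simp only [Finset.mem_filter]
      tauto
  rw [h2, ← two_mul]
  gcongr
  rw [Finset.sum_comm]
  apply Finset.sum_le_sum
  intro x hx
  have h3 : ∑ y ∈ S with x < y, g x y = ∑ d ∈ (S.filter fun y => x < y).image (fun y => y - x), g x (x + d) := by
    rw [Finset.sum_image]
    · apply Finset.sum_congr rfl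
      intro y hy
      rw [Finset.mem_filter] at hy
      rw [Nat.add_sub_cancel' hy.2.le]
    · intro y hy z hz hyz
      have hy := (Finset.mem_filter.1 hy).2
      have hz := (Finset.mem_filter.1 hz).2
      simp only at hyz
      omega
  rw [h3]
  apply Finset.sum_le_sum_of_subset
  intro d hd
  obtain ⟨y, hy, rfl⟩ := Finset.mem_image.1 hd
  rw [Finset.mem_filter] at hy
  have := hS y hy.1
  rw [Finset.mem_Ico]
  omega

theorem pair : StPair := by
  intro k hk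
  obtain ⟨m, rfl⟩ : ∃ m, k = m + 2 := ⟨k - 2, by omega⟩
  refine ⟨4 * 3 ^ m, by positivity, fun J B hB => ?_⟩
  rcases Nat.eq_zero_or_pos J with rfl | hJ
  · have h1 : ∀ β, pairs (m + 2) 0 B β = 0 := by
      intro β
      unfold pairs
      apply Finset.sum_eq_zero
      intro x hx
      apply Finset.sum_eq_zero
      intro y hy
      rw [Finset.mem_erase] at hy
      simp only [blk, lo, if_true, pow_zero, Finset.mem_Ico] at hx hy
      omega
    simp only [h1, lintegral_zero]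
    exact zero_le
  obtain ⟨j, rfl⟩ : ∃ j, J = j + 1 := ⟨J - 1, by omega⟩
  set P : ℕ := 3 ^ j with hP
  have hP1 : 1 ≤ P := Nat.one_le_pow _ _ (by norm_num)
  have hP0 : (1 : ℝ) ≤ P := by exact_mod_cast hP1
  have hlo : lo (j + 1) = P := by
    simp [lo, hP]
  have h3P : 3 ^ (j + 1) = P + 2 * P := by
    rw [pow_succ]
    omega
  have hb : blk (j + 1) = Finset.Ico P (P + 2 * P) := by
    unfold blk
    rw [hlo, h3P]
  -- the pairs
  have h1 : ∀ β, pairs (m + 2) (j + 1) B β ≤ 2 * ∑ d ∈ Finset.Ico (1:ℕ) (3 ^ (j + 1)), ∑ x ∈ blk (j + 1),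
      ov B (((x : ℝ) + β + d) ^ (m + 2) - ((x : ℝ) + β) ^ (m + 2)) := by
    intro β
    unfold pairs
    have h2 := pair_sum (S := blk (j + 1)) (N := 3 ^ (j + 1)) (fun y hy => (Finset.mem_Ico.1 hy).2)
      (fun x y => volume {τ : ℝ | τ - ((x : ℝ) + β) ^ (m + 2) ∈ B ∧ τ - ((y : ℝ) + β) ^ (m + 2) ∈ B})
      (fun x y => by
        congr 1
        ext t
        exact and_comm)
    refine h2.trans (le_of_eq ?_)
    congr 1
    apply Finset.sum_congr rfl
    intro d _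
    apply Finset.sum_congr rfl
    intro x _
    rw [ov_shift]
    congr 3
    push_cast
    ring
  have hone : ∀ d ∈ Finset.Ico (1:ℕ) (3 ^ (j + 1)), ∫⁻ β in Ioc (0:ℝ) 1, ∑ x ∈ blk (j + 1),
      ov B (((x : ℝ) + β + d) ^ (m + 2) - ((x : ℝ) + β) ^ (m + 2)) ≤
      ENNReal.ofReal (1 / d * (1 / (P:ℝ) ^ m)) * (volume B) ^ 2 := by
    intro d hd
    rw [Finset.mem_Ico] at hd
    have hd1 : (1:ℝ) ≤ d := by exact_mod_cast hd.1
    set G : ℝ → ℝ := fun v => (v + d) ^ (m + 2) - v ^ (m + 2) with hG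
    have hGm : Measurable fun v : ℝ => ov B (G v) := (ov_meas hB).comp (by fun_prop)
    have e1 : ∫⁻ β in Ioc (0:ℝ) 1, ∑ x ∈ blk (j + 1),
        ov B (((x:ℝ) + β + d) ^ (m + 2) - ((x:ℝ) + β) ^ (m + 2)) =
        ∫⁻ v in Ioc (P:ℝ) ((P + 2 * P : ℕ) : ℝ), ov B (G v) := by
      rw [lintegral_finsetSum]
      · rw [hb]
        exact tileL (fun v => ov B (G v)) hGm P (2 * P)
      · intro y _
        exact (ov_meas hB).comp (by fun_prop)
    rw [e1]
    have h2 : ∫⁻ v in Ioc (P:ℝ) ((P + 2 * P : ℕ) : ℝ), ov B (G v) ≤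
        ∫⁻ v in Icc (P:ℝ) ((P + 2 * P : ℕ) : ℝ), ov B (G v) :=
      lintegral_mono_set Ioc_subset_Icc_self
    refine h2.trans ?_
    have hder : ∀ v, HasDerivAt G (((m + 2 : ℕ) : ℝ) * (v + d) ^ (m + 1) - ((m + 2 : ℕ) : ℝ) * v ^ (m + 1)) v := by
      intro v
      have h3 : HasDerivAt (fun v : ℝ => (v + d) ^ (m + 2)) (((m + 2 : ℕ) : ℝ) * (v + d) ^ (m + 1)) v := by
        have := ((hasDerivAt_id v).add_const (d:ℝ)).fun_pow (m + 2)
        simpa using this
      exact h3.sub (by simpa using hasDerivAt_pow (m + 2) v)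
    have h3 := ov_avg hB hder (a := (P:ℝ)) (b := ((P + 2 * P : ℕ) : ℝ)) (g := (d:ℝ) * (P:ℝ) ^ m)
      (by positivity) (fun v hv => by
      have hv0 : (P:ℝ) ≤ v := hv.1
      have hv1 : 0 ≤ v := by linarith
      have h4 := pow_add_ge (x := v) (d := d) hv1 (by linarith) m
      have h5 : (P:ℝ) ^ m ≤ v ^ m := pow_le_pow_left₀ (by linarith) hv0 m
      have h6 : (d:ℝ) * (P:ℝ) ^ m ≤ d * v ^ m := mul_le_mul_of_nonneg_left h5 (by linarith)
      have hm : (0:ℝ) ≤ m := Nat.cast_nonneg m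
      have h7 : 0 ≤ (d:ℝ) * v ^ m := by positivity
      have h8 : (d:ℝ) * (P:ℝ) ^ m ≤ (v + d) ^ (m + 1) - v ^ (m + 1) := by nlinarith
      have h9 : 0 ≤ (v + d) ^ (m + 1) - v ^ (m + 1) := le_trans (by positivity) h8
      push_cast
      nlinarith)
    refine h3.trans (le_of_eq ?_)
    rw [sq, one_div_mul_one_div]
  have hmeas : ∀ d : ℕ, Measurable fun β : ℝ => ∑ x ∈ blk (j + 1),
      ov B (((x : ℝ) + β + d) ^ (m + 2) - ((x : ℝ) + β) ^ (m + 2)) := by
    intro d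
    apply Finset.measurable_sum
    intro y _
    exact (ov_meas hB).comp (by fun_prop)
  calc ∫⁻ β in Ioc (0:ℝ) 1, pairs (m + 2) (j + 1) B β
      ≤ ∫⁻ β in Ioc (0:ℝ) 1, 2 * ∑ d ∈ Finset.Ico (1:ℕ) (3 ^ (j + 1)), ∑ x ∈ blk (j + 1),
        ov B (((x : ℝ) + β + d) ^ (m + 2) - ((x : ℝ) + β) ^ (m + 2)) := lintegral_mono h1
    _ = 2 * ∑ d ∈ Finset.Ico (1:ℕ) (3 ^ (j + 1)), ∫⁻ β in Ioc (0:ℝ) 1, ∑ x ∈ blk (j + 1),
        ov B (((x : ℝ) + β + d) ^ (m + 2) - ((x : ℝ) + β) ^ (m + 2)) := by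
        rw [lintegral_const_mul _ (Finset.measurable_sum _ fun d _ => hmeas d),
          lintegral_finsetSum _ fun d _ => hmeas d]
    _ ≤ 2 * ∑ d ∈ Finset.Ico (1:ℕ) (3 ^ (j + 1)), ENNReal.ofReal (1 / d * (1 / (P:ℝ) ^ m)) * (volume B) ^ 2 := by
        gcongr with d hd
        exact hone d hd
    _ = ENNReal.ofReal (2 * ∑ d ∈ Finset.Ico (1:ℕ) (3 ^ (j + 1)), (1 / d * (1 / (P:ℝ) ^ m))) * (volume B) ^ 2 := by
        rw [← Finset.sum_mul, ← mul_assoc, ENNReal.ofReal_mul (by norm_num), ENNReal.ofReal_sum_of_nonneg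
          (fun d _ => by positivity)]
        simp
    _ ≤ _ := by
        gcongr
        rw [← Finset.sum_mul]
        have h2 := harm (j + 1)
        have h4 : ((3:ℝ) ^ (j + 1)) ^ 2 / ((3:ℝ) ^ (j + 1)) ^ (m + 2) = 1 / ((P:ℝ) ^ m * 3 ^ m) := by
          have h5 : (3:ℝ) ^ (j + 1) = P * 3 := by
            rw [pow_succ, hP]
            push_cast
            ring
          rw [h5, pow_add, ← mul_pow]
          have : (0:ℝ) < P * 3 := by positivity
          field_simp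
        have h6 : 4 * 3 ^ m * (1 + ((j + 1 : ℕ) : ℝ)) * ((3:ℝ) ^ (j + 1)) ^ 2 / ((3:ℝ) ^ (j + 1)) ^ (m + 2) =
            4 * (1 + ((j + 1 : ℕ) : ℝ)) * (1 / (P:ℝ) ^ m) := by
          rw [mul_div_assoc, h4]
          field_simp
        rw [h6, ← mul_assoc]
        apply mul_le_mul_of_nonneg_right _ (by positivity)
        push_cast at h2 ⊢
        linarith

end Pool.Agent.K7.H41.AF
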